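import Pool.Agent.Y462.SS.Det

/-!
# Automorphisms of linear activity: definitions

Owner helper524. `T X` is the group of the automorphisms of the rooted tree of the words over `X`
(`Pool/Agent/Y462/SS/Tree.lean`).
-/

set_option autoImplicit false

open Classical

namespace Pool.Agent.Y524L

open Pool.Agent.Y462.SS

variable {X : Type}

/-! ## sections at words -/

/-- the section of `g` at the word `v` -/
def secW (g : T X) : List X → T X
  | [] => g
  | x :: v => secW (sec g x) v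

theorem secW_nil (g : T X) : secW g [] = g := rfl
theorem secW_cons (g : T X) (x : X) (v : List X) : secW g (x :: v) = secW (sec g x) v := rfl

theorem secW_append (g : T X) (u v : List X) : secW g (u ++ v) = secW (secW g u) v := by
  induction u generalizing g with
  | nil => rfl
  | cons x u ih => exact ih (sec g x)

theorem secW_one (v : List X) : secW (1 : T X) v = 1 := by
  induction v with
  | nil => rfl
  | cons x v ih => rw [secW_cons, sec_one, ih]

theorem secW_mul (g h : T X) (v : List X) : secW (g * h) v = secW g (h.1 v) * secW h v := by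
  induction v generalizing g h with
  | nil => rw [nil_eq]; rfl
  | cons x v ih => rw [secW_cons, sec_mul, ih, cons_eq]; rfl

theorem apply_append (g : T X) (v w : List X) : g.1 (v ++ w) = g.1 v ++ (secW g v).1 w := by
  induction v generalizing g with
  | nil => rw [nil_eq]; rfl
  | cons x v ih => rw [List.cons_append, cons_eq, cons_eq, ih]; rfl

theorem secW_inv (g : T X) (v : List X) : secW g⁻¹ (g.1 v) = (secW g v)⁻¹ := by
  have h1 := secW_mul g⁻¹ g v
  rw [inv_mul_cancel, secW_one] at h1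
  exact eq_inv_of_mul_eq_one_left h1.symm

theorem length_apply (g : T X) (v : List X) : (g.1 v).length = v.length := g.2.1 v

/-! ## the group `Fn X` -/

variable (X) in
/-- the group of the automorphisms of finite depth (finitary automorphisms) -/
def Fn : Subgroup (T X) where
  carrier := {g | ∃ k, IsDep k g}
  one_mem' := ⟨0, rfl⟩
  mul_mem' := by
    have hm : ∀ {k l : ℕ} {g : T X}, k ≤ l → IsDep k g → IsDep l g := by
      intro k l g hkl hg
      induction hkl with
      | refl => exact hg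
      | step _ ih => exact isDep_mono ih
    rintro g h ⟨k, hk⟩ ⟨l, hl⟩
    exact ⟨max k l, isDep_mul (hm (le_max_left k l) hk) (hm (le_max_right k l) hl)⟩
  inv_mem' := by
    rintro g ⟨k, hk⟩
    exact ⟨k, isDep_inv hk⟩

/-! ## directed automorphisms -/

variable (d : X)

/-- one step of a directed automorphism along the ray `d d d ...` -/
def BT : Subgroup (Wr X (T X)) where
  carrier := {b | b.p d = d ∧ b.s d = 1}
  one_mem' := ⟨rfl, rfl⟩
  mul_mem' := by
    rintro a b ⟨ha, ha'⟩ ⟨hb, hb'⟩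
    refine ⟨?_, ?_⟩
    · rw [Wr.mul_p, Equiv.Perm.mul_apply, hb, ha]
    · rw [Wr.mul_s, hb, ha', hb', one_mul]
  inv_mem' := by
    rintro a ⟨ha, ha'⟩
    have h1 : a.p⁻¹ d = d := by rw [Equiv.Perm.inv_eq_iff_eq, ha]
    refine ⟨?_, ?_⟩
    · rw [Wr.inv_p, h1]
    · rw [Wr.inv_s, h1, ha', inv_one]

/-- sequences of steps with sections in `H` which take only finitely many values -/
def PH (H : Subgroup (T X)) : Subgroup (ℕ → BT d) where
  carrier := {β | (Set.range β).Finite ∧ ∀ n x, (β n).1.s x ∈ H}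
  one_mem' := ⟨(Set.finite_singleton 1).subset (by rintro _ ⟨n, rfl⟩; rfl), fun _ _ => one_mem H⟩
  mul_mem' := by
    rintro β γ ⟨h1, h2⟩ ⟨h3, h4⟩
    refine ⟨(Set.Finite.image2 (fun a b => a * b) h1 h3).subset ?_,
      fun n x => mul_mem (h2 n _) (h4 n x)⟩
    rintro _ ⟨n, rfl⟩
    exact ⟨_, ⟨n, rfl⟩, _, ⟨n, rfl⟩, rfl⟩
  inv_mem' := by
    rintro β ⟨h1, h2⟩
    refine ⟨(h1.image (fun a => a⁻¹)).subset ?_, fun n x => inv_mem (h2 n _)⟩
    rintro _ ⟨n, rfl⟩
    exact ⟨_, ⟨n, rfl⟩, rfl⟩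

theorem sh_mem_PH {H : Subgroup (T X)} {β : ℕ → BT d} (hβ : β ∈ PH d H) : sh β ∈ PH d H := by
  refine ⟨hβ.1.subset ?_, fun n x => hβ.2 (n + 1) x⟩
  rintro _ ⟨n, rfl⟩
  exact ⟨n + 1, rfl⟩

theorem PH_mono {H K : Subgroup (T X)} (h : H ≤ K) : PH d H ≤ PH d K :=
  fun _ hβ => ⟨hβ.1, fun n x => h (hβ.2 n x)⟩

/-- the action of the directed automorphism that moves the ray `ξ` to the ray `η` by the steps
`β` -/
noncomputable def dA : (ℕ → X) → (ℕ → BT d) → (ℕ → X) → List X → List X
  | _, _, _, [] => []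
  | ξ, β, η, x :: w => Equiv.swap d (η 0) ((β 0).1.p (Equiv.swap d (ξ 0) x)) ::
      (if x = ξ 0 then dA (sh ξ) (sh β) (sh η) w
        else ((β 0).1.s (Equiv.swap d (ξ 0) x)).1 w)

theorem dA_nil (ξ : ℕ → X) (β : ℕ → BT d) (η : ℕ → X) : dA d ξ β η [] = [] := by rw [dA]

theorem dA_cons (ξ : ℕ → X) (β : ℕ → BT d) (η : ℕ → X) (x : X) (w : List X) :
    dA d ξ β η (x :: w) = Equiv.swap d (η 0) ((β 0).1.p (Equiv.swap d (ξ 0) x)) ::
      (if x = ξ 0 then dA d (sh ξ) (sh β) (sh η) w
        else ((β 0).1.s (Equiv.swap d (ξ 0) x)).1 w) := by rw [dA]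

theorem dA_mul (ξ η ζ : ℕ → X) (β γ : ℕ → BT d) (w : List X) :
    dA d η γ ζ (dA d ξ β η w) = dA d ξ (γ * β) ζ w := by
  induction w generalizing ξ η ζ β γ with
  | nil => rw [dA_nil, dA_nil, dA_nil]
  | cons x w ih =>
    rw [dA_cons, dA_cons, dA_cons, Equiv.swap_apply_self]
    congr 1
    by_cases hx : x = ξ 0
    · have h1 : Equiv.swap d (η 0) ((β 0).1.p (Equiv.swap d (ξ 0) x)) = η 0 := by
        rw [hx, Equiv.swap_apply_right, (β 0).2.1, Equiv.swap_apply_left]
      rw [if_pos h1, if_pos hx, if_pos hx, ih]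
      rfl
    · have h1 : Equiv.swap d (η 0) ((β 0).1.p (Equiv.swap d (ξ 0) x)) ≠ η 0 := by
        intro h
        apply hx
        rw [Equiv.swap_apply_eq_iff, Equiv.swap_apply_right] at h
        have h2 : (β 0).1.p (Equiv.swap d (ξ 0) x) = (β 0).1.p d := by rw [h, (β 0).2.1]
        have h3 := (β 0).1.p.injective h2
        rwa [Equiv.swap_apply_eq_iff, Equiv.swap_apply_left] at h3
      rw [if_neg h1, if_neg hx, if_neg hx]
      rfl

theorem dA_id (ξ : ℕ → X) (w : List X) : dA d ξ 1 ξ w = w := by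
  induction w generalizing ξ with
  | nil => rw [dA_nil]
  | cons x w ih =>
    rw [dA_cons]
    have h1 : Equiv.swap d (ξ 0) ((((1 : ℕ → BT d) 0).1.p) (Equiv.swap d (ξ 0) x)) = x :=
      Equiv.swap_apply_self _ _ _
    rw [h1]
    congr 1
    split_ifs
    · exact ih (sh ξ)
    · rfl

theorem dA_length (ξ : ℕ → X) (β : ℕ → BT d) (η : ℕ → X) (w : List X) :
    (dA d ξ β η w).length = w.length := by
  induction w generalizing ξ β η with
  | nil => rw [dA_nil]
  | cons x w ih =>
    rw [dA_cons, List.length_cons, List.length_cons]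
    split_ifs
    · rw [ih]
    · rw [length_apply]

theorem dA_prefix (ξ : ℕ → X) (β : ℕ → BT d) (η : ℕ → X) (v w : List X) :
    dA d ξ β η v <+: dA d ξ β η (v ++ w) := by
  induction v generalizing ξ β η with
  | nil => rw [dA_nil]; exact List.nil_prefix
  | cons x v ih =>
    rw [List.cons_append, dA_cons, dA_cons, List.cons_prefix_cons]
    refine ⟨rfl, ?_⟩
    split_ifs
    · exact ih _ _ _
    · exact ((β 0).1.s (Equiv.swap d (ξ 0) x)).2.2 v w

/-- the directed automorphism that moves the ray `ξ` to the ray `η` by the steps `β` -/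
noncomputable def dT (ξ : ℕ → X) (β : ℕ → BT d) (η : ℕ → X) : T X :=
  ⟨{ toFun := dA d ξ β η
     invFun := dA d η β⁻¹ ξ
     left_inv := fun w => by rw [dA_mul, inv_mul_cancel, dA_id]
     right_inv := fun w => by rw [dA_mul, mul_inv_cancel, dA_id] },
    dA_length d ξ β η, dA_prefix d ξ β η⟩

theorem dT_mul (ξ η ζ : ℕ → X) (β γ : ℕ → BT d) :
    dT d η γ ζ * dT d ξ β η = dT d ξ (γ * β) ζ := by
  apply Subtype.ext
  apply Equiv.ext
  exact dA_mul d ξ η ζ β γ

theorem dT_id (ξ : ℕ → X) : dT d ξ 1 ξ = 1 := by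
  apply Subtype.ext
  apply Equiv.ext
  exact dA_id d ξ

theorem root_dT (ξ : ℕ → X) (β : ℕ → BT d) (η : ℕ → X) (x : X) :
    root (dT d ξ β η) x = Equiv.swap d (η 0) ((β 0).1.p (Equiv.swap d (ξ 0) x)) := by
  have h1 := cons_eq (dT d ξ β η) x []
  have h2 : (dT d ξ β η).1 [x] = dA d ξ β η [x] := rfl
  rw [h2, dA_cons] at h1
  exact (List.cons.inj h1).1.symm

theorem sec_dT_ray (ξ : ℕ → X) (β : ℕ → BT d) (η : ℕ → X) :
    sec (dT d ξ β η) (ξ 0) = dT d (sh ξ) (sh β) (sh η) := by
  apply Subtype.ext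
  apply Equiv.ext
  intro w
  have h1 := cons_eq (dT d ξ β η) (ξ 0) w
  have h2 : (dT d ξ β η).1 (ξ 0 :: w) = dA d ξ β η (ξ 0 :: w) := rfl
  rw [h2, dA_cons, if_pos rfl] at h1
  exact (List.cons.inj h1).2.symm

theorem sec_dT_off (ξ : ℕ → X) (β : ℕ → BT d) (η : ℕ → X) (x : X) (hx : x ≠ ξ 0) :
    sec (dT d ξ β η) x = (β 0).1.s (Equiv.swap d (ξ 0) x) := by
  apply Subtype.ext
  apply Equiv.ext
  intro w
  have h1 := cons_eq (dT d ξ β η) x w
  have h2 : (dT d ξ β η).1 (x :: w) = dA d ξ β η (x :: w) := rfl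
  rw [h2, dA_cons, if_neg hx] at h1
  exact (List.cons.inj h1).2.symm

end Pool.Agent.Y524L
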