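import Pool.Agent.Y524L.Mem

/-!
# The cover: the bounded group amalgamated with the directed automorphisms

Owner helper524.
-/

set_option autoImplicit false
set_option linter.unusedSectionVars false
set_option linter.unusedVariables false

open Classical

namespace Pool.Agent.Y524L

open Pool.Agent.Y462.SS

variable {X : Type} [Finite X] (d : X)

/-- the constant ray -/
def cr : ℕ → X := fun _ => d

/-- an element of `PH d (HB d)` and an element of `HB d` are identified if the first has finitary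
sections and they are the same automorphism -/
def Rel : Set (Monoid.Coprod (HB d) (PH d (HB d))) :=
  {r | ∃ (a : HB d) (p : PH d (HB d)), p.1 ∈ PH d (Fn X) ∧ a.1 = dT d (cr d) p.1 (cr d) ∧
    r = Monoid.Coprod.inl a * (Monoid.Coprod.inr p)⁻¹}

/-- the cover -/
def Gm : Type := Monoid.Coprod (HB d) (PH d (HB d)) ⧸ Subgroup.normalClosure (Rel d)

noncomputable instance : Group (Gm d) :=
  inferInstanceAs (Group (Monoid.Coprod (HB d) (PH d (HB d)) ⧸ Subgroup.normalClosure (Rel d)))

/-- the projection to the cover -/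
def pr : Monoid.Coprod (HB d) (PH d (HB d)) →* Gm d where
  toFun g := (QuotientGroup.mk g : Monoid.Coprod (HB d) (PH d (HB d)) ⧸
    Subgroup.normalClosure (Rel d))
  map_one' := rfl
  map_mul' _ _ := rfl

theorem pr_surjective : Function.Surjective (pr d) := QuotientGroup.mk_surjective

/-- the bounded automorphisms in the cover -/
noncomputable def iA : HB d →* Gm d := (pr d).comp Monoid.Coprod.inl

/-- the directed automorphisms in the cover -/
noncomputable def iP : PH d (HB d) →* Gm d := (pr d).comp Monoid.Coprod.inr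

theorem iA_eq_iP (a : HB d) (p : PH d (HB d)) (hp : p.1 ∈ PH d (Fn X))
    (h : a.1 = dT d (cr d) p.1 (cr d)) : iA d a = iP d p := by
  have h1 : pr d (Monoid.Coprod.inl a * (Monoid.Coprod.inr p)⁻¹) = 1 := by
    change (QuotientGroup.mk _ : Monoid.Coprod (HB d) (PH d (HB d)) ⧸
      Subgroup.normalClosure (Rel d)) = _
    exact (QuotientGroup.eq_one_iff _).2 (Subgroup.subset_normalClosure ⟨a, p, hp, h, rfl⟩)
  rw [map_mul, map_inv] at h1
  exact mul_inv_eq_one.1 h1

/-- the shift of an element of `PH d (HB d)` -/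
def shP (p : PH d (HB d)) : PH d (HB d) :=
  ⟨sh p.1, sh_mem_PH d p.2⟩

/-- the recursion on the bounded automorphisms -/
noncomputable def psiA : HB d →* Wr X (Gm d) where
  toFun a := ⟨fun x => iA d ⟨sec a.1 x, (lc_HB d).sec_mem a.1 a.2 x⟩, root a.1⟩
  map_one' := by
    apply Wr.ext
    · funext x
      change iA d _ = 1
      rw [← map_one (iA d)]
      exact congrArg (iA d) (Subtype.ext (sec_one x))
    · exact root_one
  map_mul' a b := by
    apply Wr.ext
    · funext x
      change iA d _ = iA d _ * iA d _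
      rw [← map_mul]
      exact congrArg (iA d) (Subtype.ext (sec_mul a.1 b.1 x))
    · exact root_mul a.1 b.1

/-- the recursion on the directed automorphisms -/
noncomputable def psiP : PH d (HB d) →* Wr X (Gm d) where
  toFun β := ⟨fun x => if x = d then iP d (shP d β) else iA d ⟨(β.1 0).1.s x, β.2.2 0 x⟩,
    (β.1 0).1.p⟩
  map_one' := by
    apply Wr.ext
    · funext x
      change (if x = d then iP d (shP d 1) else iA d ⟨1, _⟩) = 1
      have h1 : iP d (shP d 1) = 1 := map_one _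
      have h2 : iA d (⟨1, one_mem _⟩ : HB d) = 1 := map_one _
      rw [h1, h2, ite_self]
    · rfl
  map_mul' β γ := by
    apply Wr.ext
    · funext x
      change (if x = d then iP d (shP d (β * γ)) else
          iA d ⟨((β.1 0).1 * (γ.1 0).1).s x, _⟩) =
        (if (γ.1 0).1.p x = d then iP d (shP d β) else
          iA d ⟨(β.1 0).1.s ((γ.1 0).1.p x), _⟩) *
        (if x = d then iP d (shP d γ) else iA d ⟨(γ.1 0).1.s x, _⟩)
      have hd : (γ.1 0).1.p d = d := (γ.1 0).2.1
      by_cases hx : x = d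
      · subst hx
        rw [if_pos rfl, if_pos hd, if_pos rfl, ← map_mul]
        rfl
      · have h2 : (γ.1 0).1.p x ≠ d := by
          intro h
          exact hx ((γ.1 0).1.p.injective (h.trans hd.symm))
        rw [if_neg hx, if_neg h2, if_neg hx, ← map_mul]
        rfl
    · rfl

theorem sh_cr : sh (cr d) = cr d := rfl

/-- the recursion before the quotient -/
noncomputable def psi0 : Monoid.Coprod (HB d) (PH d (HB d)) →* Wr X (Gm d) :=
  Monoid.Coprod.lift (psiA d) (psiP d)

theorem psi0_rel : Subgroup.normalClosure (Rel d) ≤ (psi0 d).ker := by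
  apply Subgroup.normalClosure_le_normal
  rintro _ ⟨a, p, hp, h, rfl⟩
  change psi0 d (Monoid.Coprod.inl a * (Monoid.Coprod.inr p)⁻¹) = 1
  rw [map_mul, map_inv, mul_inv_eq_one, psi0, Monoid.Coprod.lift_apply_inl,
    Monoid.Coprod.lift_apply_inr]
  apply Wr.ext
  · funext x
    change iA d ⟨sec a.1 x, _⟩ = if x = d then iP d (shP d p) else iA d ⟨(p.1 0).1.s x, _⟩
    by_cases hx : x = d
    · rw [if_pos hx]
      apply iA_eq_iP
      · exact sh_mem_PH d hp
      · change sec a.1 x = dT d (cr d) (sh p.1) (cr d)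
        rw [h, hx]
        exact sec_dT_ray d (cr d) p.1 (cr d)
    · rw [if_neg hx]
      congr 1
      apply Subtype.ext
      change sec a.1 x = (p.1 0).1.s x
      rw [h, sec_dT_off d (cr d) p.1 (cr d) x hx]
      change (p.1 0).1.s (Equiv.swap d d x) = _
      rw [Equiv.swap_self]
      rfl
  · change root a.1 = (p.1 0).1.p
    rw [h]
    apply Equiv.ext
    intro x
    rw [root_dT]
    change Equiv.swap d d ((p.1 0).1.p (Equiv.swap d d x)) = _
    rw [Equiv.swap_self]
    rfl

/-- the recursion of the cover -/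
noncomputable def psi : Gm d →* Wr X (Gm d) where
  toFun := QuotientGroup.lift (Subgroup.normalClosure (Rel d)) (psi0 d) (fun x hx => psi0_rel d hx)
  map_one' := map_one (QuotientGroup.lift (Subgroup.normalClosure (Rel d)) (psi0 d) _)
  map_mul' := map_mul (QuotientGroup.lift (Subgroup.normalClosure (Rel d)) (psi0 d) _)

theorem psi_pr (g : Monoid.Coprod (HB d) (PH d (HB d))) : psi d (pr d g) = psi0 d g := rfl

theorem psi_iA (a : HB d) : psi d (iA d a) = psiA d a := by
  change psi d (pr d (Monoid.Coprod.inl a)) = _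
  rw [psi_pr, psi0, Monoid.Coprod.lift_apply_inl]

theorem psi_iP (p : PH d (HB d)) : psi d (iP d p) = psiP d p := by
  change psi d (pr d (Monoid.Coprod.inr p)) = _
  rw [psi_pr, psi0, Monoid.Coprod.lift_apply_inr]

/-! ## letters -/

/-- the bounded automorphism that moves the ray `d d d ...` to `ξ` -/
noncomputable def cT (ξ : ℕ → X) : HB d :=
  ⟨dT d (cr d) 1 ξ, dT_mem_HB d (cr d) (one_mem _) ξ⟩

/-- the element of the cover that moves the ray `ξ` to the ray `η` -/
noncomputable def dl (ξ : ℕ → X) (β : PH d (HB d)) (η : ℕ → X) : Gm d :=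
  iA d (cT d η) * iP d β * (iA d (cT d ξ))⁻¹

theorem dl_mul (ξ η ζ : ℕ → X) (β γ : PH d (HB d)) :
    dl d η γ ζ * dl d ξ β η = dl d ξ (γ * β) ζ := by
  unfold dl
  rw [map_mul]
  group

theorem root_cT (ξ : ℕ → X) : root (cT d ξ).1 = Equiv.swap d (ξ 0) := by
  apply Equiv.ext
  intro x
  change root (dT d (cr d) 1 ξ) x = _
  rw [root_dT]
  change Equiv.swap d (ξ 0) (Equiv.swap d d x) = _
  rw [Equiv.swap_self]
  rfl

theorem sec_cT_ray (ξ : ℕ → X) : sec (cT d ξ).1 d = (cT d (sh ξ)).1 :=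
  sec_dT_ray d (cr d) 1 ξ

theorem sec_cT_off (ξ : ℕ → X) (x : X) (hx : x ≠ d) : sec (cT d ξ).1 x = 1 := by
  change sec (dT d (cr d) 1 ξ) x = 1
  rw [sec_dT_off d (cr d) 1 ξ x hx]
  rfl

theorem psi_cT_p (ξ : ℕ → X) : (psi d (iA d (cT d ξ))).p = Equiv.swap d (ξ 0) := by
  rw [psi_iA]
  exact root_cT d ξ

theorem psi_cT_s (ξ : ℕ → X) (x : X) :
    (psi d (iA d (cT d ξ))).s x = if x = d then iA d (cT d (sh ξ)) else 1 := by
  rw [psi_iA]
  change iA d ⟨sec (cT d ξ).1 x, _⟩ = _
  by_cases hx : x = d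
  · rw [if_pos hx]
    congr 1
    apply Subtype.ext
    change sec (cT d ξ).1 x = _
    rw [hx, sec_cT_ray]
  · rw [if_neg hx, ← map_one (iA d)]
    congr 1
    apply Subtype.ext
    change sec (cT d ξ).1 x = _
    rw [sec_cT_off d ξ x hx]
    rfl

theorem psi_dl_p (ξ : ℕ → X) (β : PH d (HB d)) (η : ℕ → X) (x : X) :
    (psi d (dl d ξ β η)).p x =
      Equiv.swap d (η 0) ((β.1 0).1.p (Equiv.swap d (ξ 0) x)) := by
  unfold dl
  rw [map_mul, map_mul, map_inv, Wr.mul_p, Wr.mul_p, Wr.inv_p, psi_cT_p, psi_cT_p, psi_iP]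
  rfl

theorem psi_dl_s_ray (ξ : ℕ → X) (β : PH d (HB d)) (η : ℕ → X) :
    (psi d (dl d ξ β η)).s (ξ 0) = dl d (sh ξ) (shP d β) (sh η) := by
  unfold dl
  rw [map_mul, map_mul, map_inv, Wr.mul_s, Wr.mul_s, Wr.inv_s, Wr.inv_p, psi_cT_p, psi_cT_s,
    psi_cT_s, psi_iP]
  have h1 : (Equiv.swap d (ξ 0))⁻¹ (ξ 0) = d := Equiv.swap_apply_right _ _
  have h2 : (β.1 0).1.p d = d := (β.1 0).2.1
  have h3 : (psiP d β).p ((Equiv.swap d (ξ 0))⁻¹ (ξ 0)) = d := by rw [h1]; exact h2
  have h4 : (psiP d β).s ((Equiv.swap d (ξ 0))⁻¹ (ξ 0)) = iP d (shP d β) := by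
    rw [h1]; exact if_pos rfl
  rw [h3, h4, if_pos rfl, h1, if_pos rfl]

theorem psi_dl_s_off (ξ : ℕ → X) (β : PH d (HB d)) (η : ℕ → X) (x : X) (hx : x ≠ ξ 0) :
    (psi d (dl d ξ β η)).s x =
      iA d ⟨(β.1 0).1.s (Equiv.swap d (ξ 0) x), β.2.2 0 _⟩ := by
  unfold dl
  rw [map_mul, map_mul, map_inv, Wr.mul_s, Wr.mul_s, Wr.inv_s, Wr.inv_p, psi_cT_p, psi_cT_s,
    psi_cT_s, psi_iP]
  have h0 : (Equiv.swap d (ξ 0))⁻¹ x = Equiv.swap d (ξ 0) x := rfl
  have h1 : (Equiv.swap d (ξ 0)) x ≠ d := by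
    intro h
    apply hx
    rw [Equiv.swap_apply_eq_iff, Equiv.swap_apply_left] at h
    exact h
  have h3 : (β.1 0).1.p d = d := (β.1 0).2.1
  have h2 : (psiP d β).p ((Equiv.swap d (ξ 0)) x) ≠ d := by
    intro h
    exact h1 ((β.1 0).1.p.injective (h.trans h3.symm))
  have h4 : (psiP d β).s ((Equiv.swap d (ξ 0)) x) =
      iA d ⟨(β.1 0).1.s (Equiv.swap d (ξ 0) x), β.2.2 0 _⟩ := if_neg h1
  rw [h0, if_neg h1, if_neg h2, h4, one_mul, inv_one, mul_one]

/-- the elements whose iterated sections are eventually letters -/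
inductive EN : Gm d → Prop
  | nucA (a : HB d) : EN (iA d a)
  | nucD (ξ : ℕ → X) (β : PH d (HB d)) (η : ℕ → X) : EN (dl d ξ β η)
  | step (γ : Gm d) : (∀ x, EN ((psi d γ).s x)) → EN γ

end Pool.Agent.Y524L
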