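import Pool.Agent.Y524L.St
import Pool.Agent.Y462.SS.Main

/-!
# The cover maps onto a group that contains the directed automorphisms with bounded steps

Owner helper524.
-/

set_option autoImplicit false
set_option linter.unusedSectionVars false

open Classical

namespace Pool.Agent.Y524L

open Pool.Agent.Y462.SS

variable {X : Type} [Finite X] (d : X)

/-! ## the action -/

theorem tau_iA (a : HB d) : tau (psi d) (iA d a) = a.1 := by
  apply Subtype.ext
  apply Equiv.ext
  intro w
  change act (psi d) (iA d a) w = a.1.1 w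
  induction w generalizing a with
  | nil => rw [act_nil, nil_eq]
  | cons x w ih =>
    rw [act_cons, cons_eq, psi_iA]
    congr 1
    exact ih ⟨sec a.1 x, (lc_HB d).sec_mem a.1 a.2 x⟩

theorem act_dl (w : List X) (ξ : ℕ → X) (β : PH d (HB d)) (η : ℕ → X) :
    act (psi d) (dl d ξ β η) w = dA d ξ β.1 η w := by
  induction w generalizing ξ β η with
  | nil => rw [act_nil, dA_nil]
  | cons x w ih =>
    rw [act_cons, dA_cons, psi_dl_p]
    congr 1
    by_cases hx : x = ξ 0
    · rw [if_pos hx, hx, psi_dl_s_ray, ih]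
      rfl
    · rw [if_neg hx, psi_dl_s_off _ _ _ _ _ hx]
      have h1 := tau_iA d ⟨(β.1 0).1.s (Equiv.swap d (ξ 0) x), β.2.2 0 _⟩
      exact congrFun (congrArg (fun (g : T X) => (g.1 : List X → List X)) h1) w

theorem tau_dl (ξ : ℕ → X) (β : PH d (HB d)) (η : ℕ → X) :
    tau (psi d) (dl d ξ β η) = dT d ξ β.1 η := by
  apply Subtype.ext
  apply Equiv.ext
  intro w
  exact act_dl d w ξ β η

/-- directed automorphisms act faithfully -/
theorem dT_aux (n : ℕ) (ξ : ℕ → X) (β : ℕ → BT d) (η : ℕ → X)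
    (h : dT d ξ β η = 1) : ξ n = η n ∧ β n = 1 := by
  induction n generalizing ξ β η with
  | zero =>
    have h2 : ∀ x, Equiv.swap d (η 0) ((β 0).1.p (Equiv.swap d (ξ 0) x)) = x := by
      intro x
      rw [← root_dT, h, root_one]
      rfl
    have h3 : η 0 = ξ 0 := by
      have := h2 (ξ 0)
      rwa [Equiv.swap_apply_right, (β 0).2.1, Equiv.swap_apply_left] at this
    refine ⟨h3.symm, ?_⟩
    apply Subtype.ext
    apply Wr.ext
    · funext y
      by_cases hy : y = d
      · rw [hy]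
        exact (β 0).2.2
      · have h4 : Equiv.swap d (ξ 0) y ≠ ξ 0 := by
          intro h5
          apply hy
          rw [Equiv.swap_apply_eq_iff, Equiv.swap_apply_right] at h5
          exact h5
        have h6 : sec (dT d ξ β η) (Equiv.swap d (ξ 0) y) = 1 := by
          rw [h, sec_one]
        rw [sec_dT_off _ _ _ _ _ h4, Equiv.swap_apply_self] at h6
        exact h6
    · apply Equiv.ext
      intro y
      have h4 := h2 (Equiv.swap d (ξ 0) y)
      rw [Equiv.swap_apply_self, h3] at h4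
      exact (Equiv.swap d (ξ 0)).injective h4
  | succ n ih =>
    have h1 : sec (dT d ξ β η) (ξ 0) = 1 := by rw [h, sec_one]
    rw [sec_dT_ray] at h1
    exact ih _ _ _ h1

theorem dT_eq_one {ξ : ℕ → X} {β : ℕ → BT d} {η : ℕ → X} (h : dT d ξ β η = 1) :
    ξ = η ∧ β = 1 :=
  ⟨funext fun n => (dT_aux d n ξ β η h).1, funext fun n => (dT_aux d n ξ β η h).2⟩

/-- elements that act trivially die -/
theorem dies_of_tau (hEN : S_EN) {γ : Gm d} (h : tau (psi d) γ = 1) : Dies (psi d) γ := by
  have h0 := hEN X d γ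
  induction h0 with
  | nucA a =>
    rw [tau_iA] at h
    have h1 : a = 1 := Subtype.ext h
    rw [h1, map_one]
    exact Dies.one
  | nucD ξ β η =>
    rw [tau_dl] at h
    obtain ⟨h1, h2⟩ := dT_eq_one d h
    have h3 : β = 1 := Subtype.ext h2
    have h4 : dl d ξ β η = 1 := by
      rw [h1, h3]
      unfold dl
      rw [map_one]
      group
    rw [h4]
    exact Dies.one
  | step γ _ ih =>
    apply Dies.step
    · rw [← root_tau, h, root_one]
    · intro x
      apply ih
      rw [← sec_tau, h, sec_one]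

/-! ## the class -/

/-- the finitary directed automorphisms as bounded automorphisms -/
noncomputable def iQ : PH d (Fn X) →* HB d where
  toFun q := ⟨dT d (cr d) q.1 (cr d), dT_mem_HB d (cr d) q.2 (cr d)⟩
  map_one' := Subtype.ext (dT_id d (cr d))
  map_mul' a b := Subtype.ext (dT_mul d (cr d) (cr d) (cr d) b.1 a.1).symm

/-- the finitary directed automorphisms as directed automorphisms -/
def jQ : PH d (Fn X) →* PH d (HB d) := Subgroup.inclusion (PH_mono d (Fn_le_HB d))

theorem Rel_eq : Rel d = {r | ∃ q : PH d (Fn X),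
    r = Monoid.Coprod.inl (iQ d q) * (Monoid.Coprod.inr (jQ d q))⁻¹} := by
  ext r
  constructor
  · rintro ⟨a, p, hp, h, rfl⟩
    refine ⟨⟨p.1, hp⟩, ?_⟩
    have h1 : iQ d ⟨p.1, hp⟩ = a := Subtype.ext h.symm
    rw [h1]
    rfl
  · rintro ⟨q, rfl⟩
    exact ⟨iQ d q, jQ d q, q.2, rfl, rfl⟩

/-- the homomorphism from the directed automorphisms to the tree automorphisms -/
noncomputable def pT : PH d (HB d) →* T X where
  toFun q := dT d (cr d) q.1 (cr d)
  map_one' := dT_id d (cr d)
  map_mul' a b := (dT_mul d (cr d) (cr d) (cr d) b.1 a.1).symm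

theorem HB_closed (C : ∀ (G : Type) [Group G], Prop) (hC : Closed C) (hWR : S_WR) (hLF : S_LF)
    (hPOW : S_POW) (hFREE : S_FREE) (hLIM : S_LIM) (hUNION : S_UNION) : C (HB d) := by
  have hall : ∀ g : HB d, ∃ N, g ∈ (Lv (M d N) N).comap (HB d).subtype := fun g => g.2
  refine hUNION C hC (HB d) (fun N => (Lv (M d N) N).comap (HB d).subtype)
    (fun m n h g hg => LvM_mono d h hg) hall ?_
  intro N
  have h1 : C (Lv (M d N) N) :=
    Lv_closed C hC hWR (M d N) (M_closed d N C hC hLF hPOW hFREE hLIM) N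
  let φ : (Lv (M d N) N).comap (HB d).subtype →* Lv (M d N) N :=
    { toFun := fun g => ⟨g.1.1, g.2⟩
      map_one' := rfl
      map_mul' := fun _ _ => rfl }
  refine hC.of_injective _ _ φ ?_ h1
  intro a b hab
  have h2 : a.1.1 = b.1.1 := congrArg (fun z : Lv (M d N) N => z.1) hab
  exact Subtype.ext (Subtype.ext h2)

theorem Gm_closed (C : ∀ (G : Type) [Group G], Prop) (hC : Closed C) (hHB : C (HB d))
    (hAM : S_AM2) (hPHC : S_PHC) (hPLF : S_PLF) (hLVL : S_LVL) : C (Gm d) := by
  have h1 := hAM C hC (HB d) (PH d (HB d)) (PH d (Fn X)) (iQ d) (jQ d) ?_ ?_ hHB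
    (hPHC C hC X d (HB d) hHB) (hPLF X d) ?_
  · have h3 : ∀ R : Set (Monoid.Coprod (HB d) (PH d (HB d))), R = Rel d →
        C (Monoid.Coprod (HB d) (PH d (HB d)) ⧸ Subgroup.normalClosure R) → C (Gm d) := by
      rintro _ rfl h
      exact h
    exact h3 _ (Rel_eq d).symm h1
  · intro a b hab
    have h2 : dT d (cr d) a.1 (cr d) = dT d (cr d) b.1 (cr d) := congrArg Subtype.val hab
    have h3 : dT d (cr d) (b.1⁻¹ * a.1) (cr d) = 1 := by
      rw [← dT_mul d (cr d) (cr d) (cr d) a.1 b.1⁻¹, h2, dT_mul, inv_mul_cancel, dT_id]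
    have h4 := (dT_eq_one d h3).2
    exact Subtype.ext (inv_mul_eq_one.1 h4).symm
  · exact Subgroup.inclusion_injective _
  · intro s
    obtain ⟨Y, hY, ρ, hρ⟩ := hLVL X (s.image fun q => (iQ d q).1)
    refine ⟨Y, hY, ρ.comp (HB d).subtype, ρ.comp (pT d), fun q => rfl, fun q hq h2 => ?_⟩
    have h3 : (iQ d q).1 = 1 := hρ _ (Finset.mem_image_of_mem _ hq) h2
    exact Subtype.ext (dT_eq_one d h3).2

/-- the image of the cover -/
noncomputable def G1 : Subgroup (T X) := (tau (psi d)).range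

theorem G1_closed (C : ∀ (G : Type) [Group G], Prop) (hC : Closed C) (hEN : S_EN) (hLIM : S_LIM)
    (hGm : C (Gm d)) : C (G1 d) := by
  have h1 : C (Gm d ⧸ (tau (psi d)).ker) := by
    refine hLIM C hC X (Gm d) inferInstance (psi d) hGm _ ?_
    intro γ
    rw [MonoidHom.mem_ker]
    exact ⟨dies_of_tau d hEN, tau_of_dies _⟩
  exact hC.of_injective _ _ (QuotientGroup.quotientKerEquivRange (tau (psi d))).symm.toMonoidHom
    (QuotientGroup.quotientKerEquivRange (tau (psi d))).symm.injective h1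

theorem sec_mem_G1 {h : T X} (hh : h ∈ G1 d) (x : X) : sec h x ∈ G1 d := by
  obtain ⟨γ, rfl⟩ := hh
  rw [sec_tau]
  exact ⟨_, rfl⟩

theorem HB_le_G1 : HB d ≤ G1 d := fun a ha => ⟨iA d ⟨a, ha⟩, tau_iA d ⟨a, ha⟩⟩

theorem dT_mem_G1 (ξ : ℕ → X) {β : ℕ → BT d} (hβ : β ∈ PH d (HB d)) (η : ℕ → X) :
    dT d ξ β η ∈ G1 d := ⟨dl d ξ ⟨β, hβ⟩ η, tau_dl d ξ ⟨β, hβ⟩ η⟩

theorem Lv_G1_le_succ (n : ℕ) : Lv (G1 d) n ≤ Lv (G1 d) (n + 1) := by
  induction n with
  | zero => exact fun g hg x => sec_mem_G1 d hg x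
  | succ n ih => exact fun g hg x => ih (hg x)

theorem mem_Lv_of_secW {H : Subgroup (T X)} {n : ℕ} {g : T X}
    (h : ∀ v : List X, v.length = n → secW g v ∈ H) : g ∈ Lv H n := by
  induction n generalizing g with
  | zero => exact h [] rfl
  | succ n ih =>
    intro x
    apply ih
    intro v hv
    exact h (x :: v) (by rw [List.length_cons, hv])

theorem mem_Lv_of_lin (hGEN : S_GEN) {g : Equiv.Perm (List X)} (hg : IsTree g)
    (h : IsLin g) : ∃ n, (⟨g, hg⟩ : T X) ∈ Lv (G1 d) n := by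
  obtain ⟨R, F, hF, h1⟩ := h
  have h2 : ∀ f : Equiv.Perm (List X), f ∈ F → ∃ f' : T X, f'.1 = f ∧ f' ∈ HB d := by
    intro f hf
    exact ⟨⟨f, (hF f hf).1⟩, rfl, bdd_mem_HB d (hF f hf).2⟩
  let F' : Finset (T X) := F.attach.image fun f => ⟨f.1, (hF f.1 f.2).1⟩
  obtain ⟨n, hn⟩ := hGEN X d ⟨g, hg⟩ R F' (by
    intro f hf
    obtain ⟨f', -, rfl⟩ := Finset.mem_image.1 hf
    exact bdd_mem_HB d (hF f'.1 f'.2).2) (by
    intro v hv
    obtain ⟨v₁, v₂, h3, f, hf, h4⟩ := h1 v hv
    refine ⟨v₁, v₂, h3, ?_⟩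
    refine Finset.mem_image.2 ⟨⟨f, hf⟩, Finset.mem_attach _ _, ?_⟩
    apply Subtype.ext
    apply Equiv.ext
    intro w
    have h5 := apply_append ⟨g, hg⟩ v₁ w
    have h6 := h4 w
    change g (v₁ ++ w) = g v₁ ++ (secW ⟨g, hg⟩ v₁).1 w at h5
    rw [h6] at h5
    exact List.append_cancel_left h5)
  refine ⟨n, mem_Lv_of_secW fun v hv => ?_⟩
  rcases hn v hv with h3 | ⟨ξ, β, η, hβ, h3⟩
  · exact HB_le_G1 d h3
  · rw [h3]
    exact dT_mem_G1 d ξ hβ η

/-- **the theorem from the statements of the jobs** -/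
theorem lin_closed (hWR : S_WR) (hLF : S_LF) (hPOW : S_POW) (hFREE : S_FREE) (hLIM : S_LIM)
    (hUNION : S_UNION) (hAM : S_AM2) (hGEN : S_GEN) (hPHC : S_PHC) (hPLF : S_PLF)
    (hLVL : S_LVL) (hEN : S_EN) (hLIN : S_LIN) (C : ∀ (G : Type) [Group G], Prop) (hC : Closed C)
    (X : Type) (hX : Finite X) (G : Type) [Group G] (f : G →* Equiv.Perm (List X))
    (hf : Function.Injective f) (S : Set G) (hS : Subgroup.closure S = ⊤)
    (hT : ∀ s ∈ S, IsTree (f s))
    (hB : ∀ s ∈ S, IsLin (f s) ∨ ((Sections (f s)).Finite ∧ LinActivity (f s))) : C G := by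
  have hmem : ∀ g, f g ∈ T X := by
    have h1 : Subgroup.closure S ≤ (T X).comap f := by
      rw [Subgroup.closure_le]
      exact hT
    intro g
    have h2 : g ∈ Subgroup.closure S := by rw [hS]; exact Subgroup.mem_top g
    exact h1 h2
  rcases isEmpty_or_nonempty X with hE | ⟨⟨d⟩⟩
  · have h1 : ∀ g : G, f g = 1 := by
      intro g
      apply Equiv.ext
      intro w
      cases w with
      | nil => exact apply_nil (hmem g)
      | cons x _ => exact (hE.false x).elim
    have h2 : Subsingleton G := ⟨fun a b => hf ((h1 a).trans (h1 b).symm)⟩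
    exact finite_closed C hC hLF G
  · let f' : G →* T X := f.codRestrict (T X) hmem
    have hf' : Function.Injective f' := fun a b h => hf (congrArg Subtype.val h)
    have hHB : C (HB d) := HB_closed d C hC hWR hLF hPOW hFREE hLIM hUNION
    have hG1 : C (G1 d) :=
      G1_closed d C hC hEN hLIM (Gm_closed d C hC hHB hAM hPHC hPLF hLVL)
    let K : ℕ → Subgroup G := fun N => (Lv (G1 d) N).comap f'
    have hK : Monotone K := by
      apply monotone_nat_of_le_succ
      intro N g hg
      exact Lv_G1_le_succ d N hg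
    have hKS : ∀ s ∈ S, ∃ N, s ∈ K N := by
      intro s hs
      have h1 : IsLin (f s) := by
        rcases hB s hs with h | ⟨h, h'⟩
        · exact h
        · exact hLIN X hX (f s) (hT s hs) h h'
      exact mem_Lv_of_lin d hGEN (hT s hs) h1
    let U : Subgroup G :=
      { carrier := {g | ∃ N, g ∈ K N}
        one_mem' := ⟨0, one_mem _⟩
        mul_mem' := by
          rintro a b ⟨m, hm⟩ ⟨n, hn⟩
          exact ⟨max m n, mul_mem (hK (le_max_left m n) hm) (hK (le_max_right m n) hn)⟩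
        inv_mem' := by
          rintro a ⟨m, hm⟩
          exact ⟨m, inv_mem hm⟩ }
    have hU : Subgroup.closure S ≤ U := by
      rw [Subgroup.closure_le]
      exact hKS
    have hall : ∀ g, ∃ N, g ∈ K N := by
      intro g
      have h2 : g ∈ Subgroup.closure S := by rw [hS]; exact Subgroup.mem_top g
      exact hU h2
    refine hUNION C hC G K hK hall ?_
    intro N
    have h1 : C (Lv (G1 d) N) := Lv_closed C hC hWR (G1 d) hG1 N
    let φ : K N →* Lv (G1 d) N :=
      { toFun := fun g => ⟨f' g.1, g.2⟩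
        map_one' := Subtype.ext (map_one f')
        map_mul' := fun a b => Subtype.ext (map_mul f' a.1 b.1) }
    refine hC.of_injective _ _ φ ?_ h1
    intro a b hab
    exact Subtype.ext (hf' (congrArg Subtype.val hab))

end Pool.Agent.Y524L
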