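import Pool.Agent.Y524L.Base

/-!
# Level closed groups; the group of the bounded automorphisms

Owner helper524.
-/

set_option autoImplicit false

open Classical

namespace Pool.Agent.Y524L

open Pool.Agent.Y462.SS

variable {X : Type}

/-- `H` is level closed: `g` is in `H` if and only if all its sections of level one are -/
structure LC (H : Subgroup (T X)) : Prop where
  sec_mem : ∀ g ∈ H, ∀ x, sec g x ∈ H
  of_sec : ∀ g, (∀ x, sec g x ∈ H) → g ∈ H

theorem LC.secW_mem {H : Subgroup (T X)} (hH : LC H) {g : T X} (hg : g ∈ H) (v : List X) :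
    secW g v ∈ H := by
  induction v generalizing g with
  | nil => exact hg
  | cons x v ih => exact ih (hH.sec_mem g hg x)

theorem isDep_le {k l : ℕ} {g : T X} (hkl : k ≤ l) (hg : IsDep k g) : IsDep l g := by
  induction hkl with
  | refl => exact hg
  | step _ ih => exact isDep_mono ih

theorem lc_Fn [Finite X] : LC (Fn X) where
  sec_mem := by
    rintro g ⟨k, hk⟩ x
    exact ⟨k, isDep_sec hk x⟩
  of_sec := by
    intro g hg
    have := Fintype.ofFinite X
    choose f hf using hg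
    refine ⟨Finset.univ.sup f + 1, fun x => ?_⟩
    exact isDep_le (Finset.le_sup (Finset.mem_univ x)) (hf x)

variable (d : X)

theorem LvM_mono {m n : ℕ} (h : m ≤ n) : Lv (M d m) m ≤ Lv (M d n) n :=
  (Lv_mono_left (M_mono d h) m).trans (Lv_M_mono d n h)

/-- the group of the bounded automorphisms (`IsBdd`) -/
def HB : Subgroup (T X) where
  carrier := {g | ∃ N, g ∈ Lv (M d N) N}
  one_mem' := ⟨0, one_mem _⟩
  mul_mem' := by
    rintro a b ⟨m, hm⟩ ⟨n, hn⟩
    exact ⟨max m n, mul_mem (LvM_mono d (le_max_left m n) hm) (LvM_mono d (le_max_right m n) hn)⟩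
  inv_mem' := by
    rintro a ⟨m, hm⟩
    exact ⟨m, inv_mem hm⟩

theorem mem_HB {g : T X} : g ∈ HB d ↔ ∃ N, g ∈ Lv (M d N) N := Iff.rfl

theorem lc_HB [Finite X] : LC (HB d) where
  sec_mem := by
    rintro g ⟨N, hN⟩ x
    cases N with
    | zero => exact ⟨0, sec_mem_M d 0 hN x⟩
    | succ N => exact ⟨N + 1, Lv_M_mono d (N + 1) (Nat.le_succ N) (hN x)⟩
  of_sec := by
    intro g hg
    have := Fintype.ofFinite X
    choose f hf using hg
    refine ⟨Finset.univ.sup f + 1, fun x => ?_⟩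
    have h1 : f x ≤ Finset.univ.sup f := Finset.le_sup (Finset.mem_univ x)
    exact Lv_mono_left (M_mono d (h1.trans (Nat.le_succ _))) _
      (Lv_M_mono d (f x) h1 (hf x))

theorem Fn_le_HB : Fn X ≤ HB d := by
  rintro g ⟨k, hk⟩
  have h1 : g ∈ M d k := dep_mem_M d k hk
  exact ⟨k, Lv_M_mono d k (Nat.zero_le k) h1⟩

theorem bdd_mem_HB [Finite X] {g : T X} (h : IsBdd g.1) : g ∈ HB d := by
  obtain ⟨R, k, h1⟩ := h
  obtain ⟨n, h2⟩ := exists_level d k R.card R g rfl h1
  exact ⟨max k n, Lv_M_mono d (max k n) (le_max_right k n)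
    (Lv_mono_left (M_mono d (le_max_left k n)) n h2)⟩

/-- a uniform depth -/
theorem exists_dep {β : ℕ → BT d} (hβ : β ∈ PH d (Fn X)) [Finite X] :
    ∃ k, ∀ n x, IsDep k ((β n).1.s x) := by
  have := Fintype.ofFinite X
  have h0 : ∀ b : BT d, ∃ k, b ∈ Set.range β → ∀ x, IsDep k (b.1.s x) := by
    intro b
    by_cases hb : b ∈ Set.range β
    · obtain ⟨n, rfl⟩ := hb
      choose f hf using hβ.2 n
      exact ⟨Finset.univ.sup f, fun _ x => isDep_le (Finset.le_sup (Finset.mem_univ x)) (hf x)⟩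
    · exact ⟨0, fun h => absurd h hb⟩
  choose f hf using h0
  refine ⟨hβ.1.toFinset.sup f, fun n x => ?_⟩
  have h1 : f (β n) ≤ hβ.1.toFinset.sup f :=
    Finset.le_sup (f := f) (hβ.1.mem_toFinset.2 ⟨n, rfl⟩)
  exact isDep_le h1 (hf (β n) ⟨n, rfl⟩ x)

/-- directed automorphisms with finitary steps are bounded -/
theorem dir_dT {k : ℕ} : ∀ (n : ℕ) (ξ : ℕ → X) (β : ℕ → BT d) (η : ℕ → X),
    (∀ n x, IsDep k ((β n).1.s x)) → ∀ x, x ≠ ξ n → IsDep k (sec (al ξ (dT d ξ β η) n) x) := by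
  intro n
  induction n with
  | zero =>
    intro ξ β η h x hx
    change IsDep k (sec (dT d ξ β η) x)
    rw [sec_dT_off d ξ β η x hx]
    exact h 0 _
  | succ n ih =>
    intro ξ β η h x hx
    rw [← al_sh, sec_dT_ray]
    exact ih (sh ξ) (sh β) (sh η) (fun n x => h (n + 1) x) x hx

theorem dT_mem_HB [Finite X] (ξ : ℕ → X) {β : ℕ → BT d} (hβ : β ∈ PH d (Fn X)) (η : ℕ → X) :
    dT d ξ β η ∈ HB d := by
  obtain ⟨k, hk⟩ := exists_dep d hβ
  have h1 : dT d ξ β η ∈ M d k := dir_mem_M d k fun n x hx => dir_dT d n ξ β η hk x hx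
  exact ⟨k, Lv_M_mono d k (Nat.zero_le k) h1⟩

end Pool.Agent.Y524L
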