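import Pool.Agent.Y524L.Cov
import Pool.Agent.Y462.SS.St

/-!
# Automorphisms of linear activity: statements of the jobs

Owner helper524.
-/

set_option autoImplicit false

namespace Pool.Agent.Y524L

open Pool.Agent.Y462.SS

/-! ## definitions for the final theorem -/

/-- `g` is linear over bounded: there are a finite set of rays `R` and a finite set `F` of bounded
automorphisms such that every word that is not on a ray of `R` has a prefix at which the section of
`g` is in `F` -/
def IsLin {X : Type} (g : Equiv.Perm (List X)) : Prop :=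
  ∃ (R : Finset (ℕ → X)) (F : Finset (Equiv.Perm (List X))), (∀ f ∈ F, IsTree f ∧ IsBdd f) ∧
    ∀ v : List X, (∀ ρ ∈ R, ¬ OnRay ρ v) →
      ∃ v₁ v₂ : List X, v = v₁ ++ v₂ ∧ ∃ f ∈ F, ∀ w, g (v₁ ++ w) = g v₁ ++ f w

/-- the number of words of length `n` below which `g` acts nontrivially is at most `c (n + 1)` -/
def LinActivity {X : Type} (g : Equiv.Perm (List X)) : Prop :=
  ∃ c : ℕ, ∀ n : ℕ,
    {v : List X | v.length = n ∧ ∃ w, g (v ++ w) ≠ g v ++ w}.ncard ≤ c * (n + 1)

/-! ## jobs -/

/-- (AM1) amalgams over a finite group embed in a wreath product of the free product -/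
def S_AM1 : Prop := ∀ (A P Q : Type) [Group A] [Group P] [Group Q] (i : Q →* A) (j : Q →* P),
  Finite Q → Function.Injective i → Function.Injective j →
  ∀ (Y : Type) (_ : Finite Y) (α : A →* Equiv.Perm Y) (π : P →* Equiv.Perm Y),
    (∀ q, α (i q) = π (j q)) → (∀ q, α (i q) = 1 → q = 1) →
    ∃ (Z : Type) (_ : Finite Z) (Φ : Monoid.Coprod A P →* Wr Z (Monoid.Coprod A P)),
      Φ.ker = Subgroup.normalClosure
        {r | ∃ q : Q, r = Monoid.Coprod.inl (i q) * (Monoid.Coprod.inr (j q))⁻¹}

/-- (AM2) amalgams over a locally finite group -/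
def S_AM2 : Prop := ∀ (C : ∀ (G : Type) [Group G], Prop), Closed C →
  ∀ (A P Q : Type) [Group A] [Group P] [Group Q] (i : Q →* A) (j : Q →* P),
    Function.Injective i → Function.Injective j → C A → C P →
    (∀ s : Finset Q, Finite (Subgroup.closure (s : Set Q))) →
    (∀ s : Finset Q, ∃ (Y : Type) (_ : Finite Y) (α : A →* Equiv.Perm Y) (π : P →* Equiv.Perm Y),
      (∀ q, α (i q) = π (j q)) ∧ ∀ q ∈ s, α (i q) = 1 → q = 1) →
    C (Monoid.Coprod A P ⧸ Subgroup.normalClosure
        {r : Monoid.Coprod A P |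
          ∃ q : Q, r = Monoid.Coprod.inl (i q) * (Monoid.Coprod.inr (j q))⁻¹})

/-- (GEN) the sections of large level are bounded or directed -/
def S_GEN : Prop := ∀ (X : Type) [Finite X] (d : X) (g : T X) (R : Finset (ℕ → X))
  (F : Finset (T X)), (∀ f ∈ F, f ∈ HB d) →
  (∀ v : List X, (∀ ρ ∈ R, ¬ OnRay ρ v) → ∃ v₁ v₂ : List X, v = v₁ ++ v₂ ∧ secW g v₁ ∈ F) →
  ∃ n, ∀ v : List X, v.length = n → secW g v ∈ HB d ∨
    ∃ (ξ : ℕ → X) (β : ℕ → BT d) (η : ℕ → X), β ∈ PH d (HB d) ∧ secW g v = dT d ξ β η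

/-- (NUC) the sections of large level of a bounded automorphism are finitary or directed with
finitary steps -/
def S_NUC : Prop := ∀ (X : Type) [Finite X] (d : X) (a : T X), a ∈ HB d →
  ∃ n, ∀ v : List X, v.length = n → secW a v ∈ Fn X ∨
    ∃ (ξ : ℕ → X) (β : ℕ → BT d) (η : ℕ → X), β ∈ PH d (Fn X) ∧ secW a v = dT d ξ β η

/-- (LIN) finite-state automorphisms of linear activity -/
def S_LIN : Prop := ∀ (X : Type), Finite X → ∀ g : Equiv.Perm (List X), IsTree g →
  (Sections g).Finite → LinActivity g → IsLin g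

/-- (PHC) the group of sequences with finitely many values is in the class -/
def S_PHC : Prop := ∀ (C : ∀ (G : Type) [Group G], Prop), Closed C →
  ∀ (X : Type) [Finite X] (d : X) (H : Subgroup (T X)), C H → C (PH d H)

/-- (PLF) sequences of finitary steps with finitely many values form a locally finite group -/
def S_PLF : Prop := ∀ (X : Type) [Finite X] (d : X) (s : Finset (PH d (Fn X))),
  Finite (Subgroup.closure (s : Set (PH d (Fn X))))

/-- (LVL) the group of tree automorphisms acts faithfully on the levels -/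
def S_LVL : Prop := ∀ (X : Type) [Finite X] (s : Finset (T X)),
  ∃ (Y : Type) (_ : Finite Y) (ρ : T X →* Equiv.Perm Y), ∀ g ∈ s, ρ g = 1 → g = 1

/-- (EN) the cover is contracting (uses `S_NUC`) -/
def S_EN : Prop := ∀ (X : Type) [Finite X] (d : X) (γ : Gm d), EN d γ

end Pool.Agent.Y524L
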